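import Pool.Agent.helper97.KR.Spec

set_option autoImplicit false

namespace Pool.Agent.helper97.KR

open Finset Classical

noncomputable section

/-- **RR** -/
theorem RR (hAA : AA_stmt) (hSP3 : SP3_stmt) (hTG : TG_stmt) (hTSK : TSK_stmt) (hST : ST_stmt) (hCON : CON_stmt)
    (hCUT : CUT_stmt) : RR_stmt := by
  intro V E hHd
  have main : ∀ n : ℕ, ∀ (ends : E → Sym2 V) (S : Finset V) (F : Finset E), S.card = n → G3 ends S F →
      KO ends S F := by
    intro n
    induction n using Nat.strong_induction_on with
    | _ n ih =>
      intro ends S F hn hG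
      by_cases h5 : S.card ≤ 5
      · exact hAA V E ends S F hG ((Finset.card_filter_le _ _).trans h5)
      push Not at h5
      obtain ⟨_, hU⟩ := hSP3 V E ends S F hG
      by_cases ht : ∃ U ⊆ S, 2 ≤ U.card ∧ U.card < S.card ∧ (ins ends F U).card + 3 = 3 * U.card
      · obtain ⟨U, hUS, hU2, hUc, hUt⟩ := ht
        obtain ⟨t, htU⟩ : U.Nonempty := Finset.card_pos.mp (by omega)
        obtain ⟨g1, g2⟩ := hTG V E ends S U t F hG hUS htU hUt
        have hcS : (cS S U t).card < n := by
          have h1 : (cS S U t).card ≤ (S \ U).card + 1 := Finset.card_insert_le _ _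
          have h2 : (S \ U).card + U.card = S.card := Finset.card_sdiff_add_card_eq_card hUS
          omega
        exact hTSK V E ends S U t F hUS htU hU2 hUc (ih _ (by omega) ends U _ rfl g1)
          (ih _ hcS (cE ends U t) (cS S U t) _ rfl g2)
      · push Not at ht
        have hslack : ∀ U ⊆ S, 2 ≤ U.card → U.card < S.card → (ins ends F U).card + 4 ≤ 3 * U.card := by
          intro U hUS h2 hc
          have a1 := hU U hUS (Finset.card_pos.mp (by omega))
          have a2 := ht U hUS h2 hc
          omega
        by_cases hd : ∃ v ∈ S, dgr ends F v ≤ 4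
        · obtain ⟨v, hv, hd⟩ := hd
          have hlt : (S.erase v).card < n := by
            rw [← hn]
            exact Finset.card_erase_lt_of_mem hv
          exact hST V E ends S F v hG (by omega) hv hd
            (fun ends' F' g _ _ => ih _ hlt ends' (S.erase v) F' rfl g)
        · push Not at hd
          have h5' := hCUT V E ends S F hG hslack (fun v hv => hd v hv)
          by_cases hx : ∃ x ∈ S, ∀ v ∈ S, v ≠ x → ∃ e ∈ F, ends e = s(x, v)
          · obtain ⟨x, hxS, hx⟩ := hx
            refine hCON V E ends S F x hG hxS hx (fun U hUS h2 => hslack U (hUS.trans (Finset.erase_subset _ _)) h2 ?_)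
            have a1 := Finset.card_le_card hUS
            have a2 := Finset.card_erase_lt_of_mem hxS
            omega
          · push Not at hx
            refine hHd ends S F ⟨hG, by omega, h5', hslack, fun x hxS => ?_⟩
            obtain ⟨v, hv, hne, h⟩ := hx x hxS
            exact ⟨v, hv, hne, fun e he => h e he⟩
  intro ends S F hG
  exact main _ ends S F rfl hG

end

end Pool.Agent.helper97.KR
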